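import Pool.Agent.Y972.WAP.Main

/-!
# Every semitopological semigroup with a left invariant mean on `WAP(S)` has property (F)
-/

set_option autoImplicit false

open Set Topology Pool.Agent.Y972.WAP

namespace Pool.Agent.Results.MP_c68506_an.WAPPropertyF

/-- Let `S` be a semitopological semigroup such that `WAP(S)` has a left invariant mean, `E` a
Hausdorff locally convex space with topology given by the family `Q` of seminorms, `C` a nonempty
weakly compact convex subset of `E`, and `T` a weakly separately continuous, weakly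
quasi-equicontinuous, `Q`-nonexpansive representation of `S` on `C`. Then `T` has a common fixed
point. No separability is assumed. -/
theorem result {𝕜 𝕂 S E ι : Type*} [RCLike 𝕜] [RCLike 𝕂]
    [Semigroup S] [TopologicalSpace S] [SeparatelyContinuousMul S]
    (hS : ∃ m : WAPspace 𝕂 S →ₗ[𝕂] 𝕂, IsLIM m)
    [AddCommGroup E] [Module 𝕜 E] [TopologicalSpace E] [T2Space E]
    (Q : SeminormFamily 𝕜 E ι) (hQ : WithSeminorms Q)
    (C : Set (WeakSpace 𝕜 E)) (hne : C.Nonempty) (hC : IsCompact C)
    (hconv : ∀ x ∈ C, ∀ y ∈ C, ∀ a b : ℝ, 0 ≤ a → 0 ≤ b → a + b = 1 →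
      (a : 𝕜) • x + (b : 𝕜) • y ∈ C)
    (T : S → C → C)
    (hrep : ∀ s t x, T (s * t) x = T s (T t x))
    (hcont₁ : ∀ s, Continuous (T s)) (hcont₂ : ∀ x, Continuous fun s => T s x)
    (hquasi : ∀ g ∈ closure (range T), Continuous g)
    (hnonexp : ∀ (s : S) (i : ι) (x y : C),
      Q i ((toWeakSpace 𝕜 E).symm (T s x) - (toWeakSpace 𝕜 E).symm (T s y)) ≤
        Q i ((toWeakSpace 𝕜 E).symm x - (toWeakSpace 𝕜 E).symm y)) :
    ∃ x : C, ∀ s, T s x = x :=
  main hS Q hQ C hne hC hconv T hrep hcont₁ hcont₂ hquasi hnonexp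

end Pool.Agent.Results.MP_c68506_an.WAPPropertyF
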